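import Mathlib
import Pool.Agent.H93.Sd5

namespace Pool.Agent.Results.MP_080bf7_an.Iff
open MeasureTheory

/-- The compact group `(ℤ/4ℤ)^ℕ`. -/
abbrev G : Type := ℕ → ZMod 4

/-- Its dual group of finitely supported sequences. -/
abbrev Ghat : Type := ℕ →₀ ZMod 4

instance : BorelSpace (ZMod 4) := DiscreteMeasurableSpace.toBorelSpace

/-- Normalised Haar measure. -/
noncomputable def mG : Measure G := Measure.addHaarMeasure ⊤

/-- The character `t ↦ exp (2 π i (∑ k, t k * n k) / 4)`. -/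
noncomputable def chr (n : Ghat) (t : G) : ℂ :=
  Complex.exp (2 * Real.pi * Complex.I * ((n.sum fun k v => t k * v).val : ℂ) / 4)

/-- The `ψ₂` norm. -/
noncomputable def psi2 (f : G → ℂ) : ℝ :=
  sInf {c : ℝ | 0 < c ∧ ∫ t, Real.exp (‖f t‖ ^ 2 / c ^ 2) ∂mG ≤ Real.exp 1}

/-- Subgaussian sets of characters. -/
def Subgaussian (Λ : Set Ghat) : Prop :=
  ∃ C : ℝ, ∀ (s : Finset Ghat) (a : Ghat → ℂ), (∀ n ∈ s, n ∈ Λ) →
    psi2 (fun t => ∑ n ∈ s, a n * chr n t) ≤ C * Real.sqrt (∑ n ∈ s, ‖a n‖ ^ 2)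

/-- Quasi-independent sets. -/
def QuasiIndep (Λ : Set Ghat) : Prop :=
  0 ∉ Λ ∧ ∀ (s : Finset Ghat) (ξ : Ghat → ℤ), (∀ n ∈ s, n ∈ Λ) →
    (∀ n ∈ s, ξ n = -1 ∨ ξ n = 0 ∨ ξ n = 1) → ∑ n ∈ s, ξ n • n = 0 → ∀ n ∈ s, ξ n = 0

lemma chr_eq (n : Ghat) (t : G) : chr n t = ZMod.stdAddChar (n.sum fun k v => t k * v) := by
  rw [ZMod.stdAddChar_apply, ZMod.toCircle_apply, chr]; norm_num

theorem result (Λ : Set Ghat) (h0 : 0 ∉ Λ) :
    Subgaussian Λ ↔ ∃ (k : ℕ) (L : Fin k → Set Ghat), (∀ i, QuasiIndep (L i)) ∧ Λ = ⋃ i, L i := by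
  classical
  have hp : IsProbabilityMeasure mG := ⟨Measure.addHaarMeasure_self (K₀ := ⊤)⟩
  have hi : mG.IsAddLeftInvariant := by unfold mG; infer_instance
  have hc : H93Sd.Chars chr := ⟨fun t => by simp [chr_eq], fun x y t => by
    rw [chr_eq, chr_eq, chr_eq, Finsupp.sum_add_index' (by simp) (by simp [mul_add]),
      AddChar.map_add_eq_mul], fun x t => by rw [chr_eq]; exact Circle.norm_coe _⟩
  have hm : ∀ x, Measurable (chr x) := fun x => by
    have : Measurable fun t : G => x.sum fun k v => t k * v :=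
      Finset.measurable_sum _ fun k _ => (measurable_pi_apply k).mul_const _
    exact (Measurable.of_discrete (f := fun j : ZMod 4 =>
      Complex.exp (2 * Real.pi * Complex.I * (j.val : ℂ) / 4))).comp this
  have ho : ∀ x, x ≠ 0 → ∫ t, chr x t ∂mG = 0 := fun x hx => by
    obtain ⟨k, hk⟩ := Finsupp.ne_iff.1 hx
    have h1 := integral_add_left_eq_self (μ := mG) (chr x) (Pi.single k 1)
    have h2 : ∀ t, chr x (Pi.single k 1 + t) = ZMod.stdAddChar (x k) * chr x t := fun t => by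
      rw [chr_eq, chr_eq, ← AddChar.map_add_eq_mul]
      congr 1
      simp only [Pi.add_apply, add_mul, Finsupp.sum_add]
      congr 1
      rw [Finsupp.sum, Finset.sum_eq_single k]
      · simp
      · intro l _ hl; simp [hl]
      · intro h; simpa using h
    simp only [h2, integral_const_mul] at h1
    have h3 : ZMod.stdAddChar (x k) ≠ 1 := fun h => hk <| ZMod.injective_stdAddChar (by simpa using h)
    by_contra h4
    exact h3 (mul_right_cancel₀ h4 (by rw [h1, one_mul]))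
  constructor
  · rintro ⟨C, hC⟩
    obtain ⟨k, L, h1, h2⟩ := H93Sd.subg_qi (m := mG) hc hm (N := 4) (by norm_num)
      (fun x => by ext k; simp only [Finsupp.smul_apply, nsmul_eq_mul]; exact zero_mul (x k))
      h0 (C := C) fun s a hs => hC s a hs
    exact ⟨k, L, fun i => ⟨fun h => h0 (h2 ▸ Set.mem_iUnion.2 ⟨i, h⟩),
      fun s ξ hs => h1 i s ξ hs⟩, h2⟩
  · rintro ⟨k, L, h1, rfl⟩
    exact ⟨_, fun s a hs => H93Sd.qi_subg (m := mG) hc hm ho
      (fun i s ξ hs => (h1 i).2 s ξ hs) s a hs⟩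

end Pool.Agent.Results.MP_080bf7_an.Iff
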